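import Mathlib

/-!
# The local dimension of the Boolean lattice is smaller than `n` for `n ≥ 4`

An explicit local realizer of the Boolean lattice `2^4` consisting of four partial linear
extensions in which every element lies in at most three of them shows `ldim(2^4) ≤ 3`. Since the
local dimension is subadditive for products, `ldim(2^n) ≤ n - ⌊n / 4⌋` for all `n`. For `n ≤ 3`
the value is `n`.
-/

set_option autoImplicit false

namespace Pool.Agent.Results.MP_666a49_co.Smaller

section General

variable {α β : Type} [PartialOrder α] [PartialOrder β]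

/-- A partial linear extension of a finite poset: a list without repetitions (the elements of a
subset in the order of the linear order) in which no element is followed by a smaller one. -/
def IsPLE (l : List α) : Prop := l.Nodup ∧ l.Pairwise fun x y => ¬ y < x

/-- Both `x` and `y` occur in `l`, and `x` occurs before `y`. -/
def Before (l : List α) (x y : α) : Prop := List.Sublist [x, y] l

/-- A family of lists `L 0, ..., L (m - 1)` is a local realizer. -/
structure IsLocalRealizer {m : ℕ} (L : Fin m → List α) : Prop where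
  ple : ∀ i, IsPLE (L i)
  comparable : ∀ x y : α, x < y → ∃ i, Before (L i) x y
  incomparable : ∀ x y : α, ¬ x ≤ y → ¬ y ≤ x →
    (∃ i, Before (L i) x y) ∧ ∃ i, Before (L i) y x

open Classical in
/-- The number of members of the family that contain `x`. -/
noncomputable def mult {m : ℕ} (L : Fin m → List α) (x : α) : ℕ :=
  (Finset.univ.filter fun i => x ∈ L i).card

/-- There is a local realizer such that every element lies in at most `k` members. -/
def HasLDim (α : Type) [PartialOrder α] (k : ℕ) : Prop :=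
  ∃ (m : ℕ) (L : Fin m → List α), IsLocalRealizer L ∧ ∀ x, mult L x ≤ k

/-- The local dimension. -/
noncomputable def ldim (α : Type) [PartialOrder α] : ℕ := sInf {k | HasLDim α k}

lemma IsLocalRealizer.before {m : ℕ} {L : Fin m → List α} (h : IsLocalRealizer L) {x y : α}
    (hxy : ¬ y ≤ x) : ∃ i, Before (L i) x y := by
  by_cases h1 : x ≤ y
  · exact h.comparable x y (lt_of_le_not_ge h1 hxy)
  · exact (h.incomparable x y h1 hxy).1

lemma IsLocalRealizer.of_before {m : ℕ} {L : Fin m → List α} (h : ∀ i, IsPLE (L i))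
    (h' : ∀ x y : α, ¬ y ≤ x → ∃ i, Before (L i) x y) : IsLocalRealizer L :=
  ⟨h, fun x y hxy => h' x y (not_le_of_gt hxy), fun x y h1 h2 => ⟨h' x y h2, h' y x h1⟩⟩

/-- A linear extension of a finite poset, as a list. -/
lemma exists_linext (α : Type) [PartialOrder α] [Finite α] :
    ∃ l : List α, IsPLE l ∧ ∀ x, x ∈ l := by
  classical
  have := Fintype.ofFinite α
  let U : Finset (LinearExtension α) := (Finset.univ : Finset α)
  refine ⟨U.sort (· ≤ ·), ⟨U.sort_nodup _, ?_⟩, ?_⟩
  · refine (U.pairwise_sort (· ≤ ·)).imp ?_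
    intro a b hab hba
    have h1 : toLinearExtension (α := α) b ≤ toLinearExtension (α := α) a :=
      toLinearExtension.monotone hba.le
    have h2 : (a : LinearExtension α) = b := le_antisymm hab h1
    exact hba.ne h2.symm
  · intro x
    exact (Finset.mem_sort (s := U) (· ≤ ·)).2 (Finset.mem_univ (α := α) x)

omit [PartialOrder α] in
lemma sublist_flatMap {γ : Type} {l l' : List α} (f : α → List γ) (h : List.Sublist l l') :
    List.Sublist (l.flatMap f) (l'.flatMap f) := by
  induction h with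
  | slnil => exact List.Sublist.refl _
  | cons a _ ih =>
    rw [List.flatMap_cons]
    exact ih.trans (List.sublist_append_right _ _)
  | cons_cons a _ ih =>
    rw [List.flatMap_cons, List.flatMap_cons]
    exact List.Sublist.append (List.Sublist.refl _) ih

omit [PartialOrder α] in
lemma before_flatMap {γ : Type} {l : List α} {f : α → List γ} {x y : α} {a b : γ}
    (h : Before l x y) (ha : a ∈ f x) (hb : b ∈ f y) : List.Sublist [a, b] (l.flatMap f) := by
  have h2 : List.Sublist [a, b] ([x, y].flatMap f) := by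
    simp only [List.flatMap_cons, List.flatMap_nil, List.append_nil]
    have : [a, b] = [a] ++ [b] := rfl
    rw [this]
    exact List.Sublist.append (List.singleton_sublist.2 ha) (List.singleton_sublist.2 hb)
  exact h2.trans (sublist_flatMap f h)

/-- The lexicographic product of a partial linear extension and a linear extension. -/
lemma isPLE_flatMap {γ : Type} [PartialOrder γ] {l : List α} {t : List β}
    (p : α → β → γ) (hp : ∀ x y x' y', p x y = p x' y' → x = x' ∧ y = y')
    (hp' : ∀ x y x' y', p x y < p x' y' → x ≤ x' ∧ y ≤ y')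
    (hl : IsPLE l) (ht : IsPLE t) : IsPLE (l.flatMap fun x => t.map (p x)) := by
  constructor
  · rw [List.nodup_flatMap]
    refine ⟨fun x _ => ht.1.map fun y y' h => (hp _ _ _ _ h).2, ?_⟩
    refine hl.1.imp ?_
    intro x x' hx
    simp only [Function.onFun]
    rw [List.disjoint_left]
    intro z hz hz'
    rw [List.mem_map] at hz hz'
    obtain ⟨y, _, rfl⟩ := hz
    obtain ⟨y', _, h⟩ := hz'
    exact hx (hp _ _ _ _ h).1.symm
  · rw [List.pairwise_flatMap]
    constructor
    · intro x _
      rw [List.pairwise_map]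
      refine (ht.2.and ht.1).imp ?_
      rintro y y' ⟨h1, h2⟩ h3
      exact h1 (lt_of_le_of_ne (hp' _ _ _ _ h3).2 h2.symm)
    · refine (hl.2.and hl.1).imp ?_
      rintro x x' ⟨h1, h2⟩ a ha b hb h3
      rw [List.mem_map] at ha hb
      obtain ⟨y, _, rfl⟩ := ha
      obtain ⟨y', _, rfl⟩ := hb
      exact h1 (lt_of_le_of_ne (hp' _ _ _ _ h3).1 h2.symm)

/-- The local dimension is subadditive for products. -/
lemma HasLDim.prod [Finite α] [Finite β] {k l : ℕ} (hα : HasLDim α k) (hβ : HasLDim β l) :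
    HasLDim (α × β) (k + l) := by
  classical
  obtain ⟨m, L, hL, hk⟩ := hα
  obtain ⟨n, M, hM, hl⟩ := hβ
  obtain ⟨tα, htα, hα⟩ := exists_linext α
  obtain ⟨tβ, htβ, hβ⟩ := exists_linext β
  let f : Fin m → List (α × β) := fun i => (L i).flatMap fun x => tβ.map (Prod.mk x)
  let g : Fin n → List (α × β) := fun j => (M j).flatMap fun y => tα.map fun x => (x, y)
  have hf : ∀ i, IsPLE (f i) := fun i => isPLE_flatMap Prod.mk
    (fun x y x' y' h => by simpa using h) (fun x y x' y' h => h.le) (hL.ple i) htβ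
  have hg : ∀ j, IsPLE (g j) := fun j => isPLE_flatMap (fun y x => (x, y))
    (fun x y x' y' h => by simpa [and_comm] using h) (fun x y x' y' h => h.le.symm) (hM.ple j) htα
  refine ⟨m + n, Fin.append f g, IsLocalRealizer.of_before ?_ ?_, ?_⟩
  · intro i
    refine Fin.addCases (fun i => ?_) (fun j => ?_) i
    · rw [Fin.append_left]
      exact hf i
    · rw [Fin.append_right]
      exact hg j
  · rintro ⟨x, y⟩ ⟨x', y'⟩ h
    rw [Prod.mk_le_mk, not_and_or] at h
    rcases h with h | h
    · obtain ⟨i, hi⟩ := hL.before h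
      refine ⟨Fin.castAdd n i, ?_⟩
      rw [Fin.append_left]
      exact before_flatMap hi (List.mem_map.2 ⟨y, hβ y, rfl⟩) (List.mem_map.2 ⟨y', hβ y', rfl⟩)
    · obtain ⟨j, hj⟩ := hM.before h
      refine ⟨Fin.natAdd m j, ?_⟩
      rw [Fin.append_right]
      exact before_flatMap hj (List.mem_map.2 ⟨x, hα x, rfl⟩) (List.mem_map.2 ⟨x', hα x', rfl⟩)
  · rintro ⟨x, y⟩
    have h1 : mult (Fin.append f g) (x, y) = mult L x + mult M y := by
      unfold mult
      rw [Finset.card_filter, Finset.card_filter, Finset.card_filter, Fin.sum_univ_add]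
      congr 1
      · refine Finset.sum_congr rfl fun i _ => ?_
        rw [Fin.append_left]
        simp [f, hβ]
      · refine Finset.sum_congr rfl fun j _ => ?_
        rw [Fin.append_right]
        simp [g, hα]
    rw [h1]
    exact add_le_add (hk x) (hl y)

/-- Invariance under isomorphisms. -/
lemma HasLDim.iso {k : ℕ} (e : α ≃o β) (h : HasLDim α k) : HasLDim β k := by
  classical
  obtain ⟨m, L, hL, hk⟩ := h
  refine ⟨m, fun i => (L i).map e, IsLocalRealizer.of_before ?_ ?_, ?_⟩
  · intro i
    refine ⟨(hL.ple i).1.map e.injective, ?_⟩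
    rw [List.pairwise_map]
    exact (hL.ple i).2.imp fun {a b} h h' => h (e.lt_iff_lt.1 h')
  · intro x y h
    obtain ⟨i, hi⟩ := hL.before (x := e.symm x) (y := e.symm y)
      (fun h' => h (e.symm.le_iff_le.1 h'))
    refine ⟨i, ?_⟩
    have := List.Sublist.map e hi
    simpa [Before] using this
  · intro x
    have h1 : mult (fun i => (L i).map e) x = mult L (e.symm x) := by
      unfold mult
      congr 1
      ext i
      simp only [Finset.mem_filter, Finset.mem_univ, true_and, List.mem_map]
      constructor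
      · rintro ⟨a, ha, rfl⟩
        simpa using ha
      · intro h
        exact ⟨_, h, by simp⟩
    rw [h1]
    exact hk _

lemma ldim_le {k : ℕ} (h : HasLDim α k) : ldim α ≤ k := Nat.sInf_le h

lemma le_ldim {k l : ℕ} (h0 : HasLDim α l) (h : ∀ j, HasLDim α j → k ≤ j) : k ≤ ldim α :=
  h _ (Nat.sInf_mem (s := {k | HasLDim α k}) ⟨l, h0⟩)

omit [PartialOrder α] in
lemma before_idx [DecidableEq α] {l : List α} (hl : l.Nodup) {x y : α} (h : Before l x y) :
    x ∈ l ∧ y ∈ l ∧ l.idxOf x < l.idxOf y := by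
  unfold Before at h
  have hx : x ∈ l := h.subset (by simp)
  have hy : y ∈ l := h.subset (by simp)
  refine ⟨hx, hy, ?_⟩
  rw [List.cons_sublist_iff] at h
  obtain ⟨r₁, r₂, rfl, h1, h2⟩ := h
  rw [List.singleton_sublist] at h2
  have hy1 : y ∉ r₁ := fun h3 => (List.disjoint_of_nodup_append hl) h3 h2
  rw [List.idxOf_append_of_mem h1, List.idxOf_append_of_notMem hy1]
  have := List.idxOf_lt_length_of_mem h1
  omega

lemma idx_of_lt [DecidableEq α] {l : List α} (hl : IsPLE l) {x y : α} (hx : x ∈ l) (hy : y ∈ l)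
    (h : x < y) : l.idxOf x < l.idxOf y := by
  by_contra hn
  have hne : l.idxOf x ≠ l.idxOf y := fun h' => h.ne ((List.idxOf_inj hx).1 h')
  have hlt : l.idxOf y < l.idxOf x := by omega
  have h1 := (List.pairwise_iff_getElem.1 hl.2) (l.idxOf y) (l.idxOf x)
    (List.idxOf_lt_length_of_mem hy) (List.idxOf_lt_length_of_mem hx) hlt
  rw [List.getElem_idxOf, List.getElem_idxOf] at h1
  exact h1 h

open Classical in
/-- Incomparable elements lie together in two members. -/
lemma two_le_mult {m : ℕ} {L : Fin m → List α} (hL : IsLocalRealizer L) {x y : α}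
    (h1 : ¬ x ≤ y) (h2 : ¬ y ≤ x) :
    2 ≤ ((Finset.univ.filter fun i => x ∈ L i) ∩ (Finset.univ.filter fun i => y ∈ L i)).card := by
  obtain ⟨⟨i, hi⟩, ⟨j, hj⟩⟩ := hL.incomparable x y h1 h2
  obtain ⟨a1, a2, a3⟩ := before_idx (hL.ple i).1 hi
  obtain ⟨b1, b2, b3⟩ := before_idx (hL.ple j).1 hj
  have hij : i ≠ j := by
    rintro rfl
    omega
  have := Finset.one_lt_card.2 (⟨i, by simp [a1, a2], j, by simp [b1, b2], hij⟩ :
    ∃ a ∈ (Finset.univ.filter fun i => x ∈ L i) ∩ (Finset.univ.filter fun i => y ∈ L i),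
    ∃ b ∈ (Finset.univ.filter fun i => x ∈ L i) ∩ (Finset.univ.filter fun i => y ∈ L i), a ≠ b)
  omega

open Classical in
lemma same_members {m : ℕ} {L : Fin m → List α} (hL : IsLocalRealizer L) {x y : α}
    (h1 : ¬ x ≤ y) (h2 : ¬ y ≤ x) (hx : mult L x ≤ 2) (hy : mult L y ≤ 2) :
    (Finset.univ.filter fun i => x ∈ L i) = (Finset.univ.filter fun i => y ∈ L i) := by
  have h3 := two_le_mult hL h1 h2
  unfold mult at hx hy
  have e1 := Finset.eq_of_subset_of_card_le (Finset.inter_subset_left
    (s₁ := Finset.univ.filter fun i => x ∈ L i) (s₂ := Finset.univ.filter fun i => y ∈ L i))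
    (by omega)
  have e2 := Finset.eq_of_subset_of_card_le (Finset.inter_subset_right
    (s₁ := Finset.univ.filter fun i => x ∈ L i) (s₂ := Finset.univ.filter fun i => y ∈ L i))
    (by omega)
  exact e1.symm.trans e2

end General

/-! ### The certificate for `n = 4` -/

/-- The subset with characteristic vector given by the binary digits of `k`. -/
def code (k : Fin 16) : Finset (Fin 4) := Finset.univ.filter fun i => (k : ℕ).testBit i

/-- inclusion of the coded sets -/
def sub (a b : Fin 16) : Bool := (a : ℕ) &&& (b : ℕ) == (a : ℕ)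

/-- The four partial linear extensions. -/
def lst : Fin 4 → List (Fin 16) := ![[0, 2, 6, 8, 10, 14, 1, 9, 3, 11, 5, 7, 13, 15],
  [0, 4, 12, 1, 5, 13, 2, 3, 6, 7, 10, 11, 14, 15],
  [1, 8, 9, 2, 10, 11, 4, 6, 12, 14],
  [3, 4, 5, 7, 8, 12, 9]]

lemma code_le : ∀ a b : Fin 16, code a ≤ code b ↔ sub a b = true := by decide

lemma code_surj : ∀ A : Finset (Fin 4), ∃ a, code a = A := by decide

lemma lst_nodup : ∀ i, (lst i).Nodup := by decide

lemma lst_pairwise : ∀ i, (lst i).Pairwise fun x y => ¬ (sub y x = true ∧ ¬ sub x y = true) := by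
  decide

lemma lst_before : ∀ x y : Fin 16, ¬ sub y x = true → ∃ i, List.Sublist [x, y] (lst i) := by
  decide

lemma lst_mult : ∀ x : Fin 16, (Finset.univ.filter fun i => x ∈ lst i).card ≤ 3 := by
  decide

lemma code_inj : Function.Injective code := by decide

lemma hasLDim_four : HasLDim (Finset (Fin 4)) 3 := by
  refine ⟨4, fun i => (lst i).map code, IsLocalRealizer.of_before ?_ ?_, ?_⟩
  · intro i
    refine ⟨(lst_nodup i).map code_inj, ?_⟩
    rw [List.pairwise_map]
    refine (lst_pairwise i).imp ?_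
    intro a b h h'
    rw [lt_iff_le_not_ge, code_le, code_le] at h'
    exact h h'
  · intro x y h
    obtain ⟨a, rfl⟩ := code_surj x
    obtain ⟨b, rfl⟩ := code_surj y
    rw [code_le] at h
    obtain ⟨i, hi⟩ := lst_before a b h
    exact ⟨i, by simpa [Before] using hi.map code⟩
  · intro x
    obtain ⟨a, rfl⟩ := code_surj x
    refine le_trans (le_of_eq ?_) (lst_mult a)
    unfold mult
    congr 1
    ext i
    simp only [Finset.mem_filter, Finset.mem_univ, true_and, List.mem_map]
    constructor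
    · rintro ⟨b, hb, h⟩
      rwa [← code_inj h]
    · intro h
      exact ⟨a, h, rfl⟩

/-! ### All `n` -/

lemma hasLDim_zero : HasLDim (Finset (Fin 0)) 0 := by
  refine ⟨0, Fin.elim0, IsLocalRealizer.of_before (fun i => i.elim0) ?_, ?_⟩
  · intro x y h
    exact absurd (Subsingleton.elim y x).le h
  · intro x
    simp [mult]

lemma one_nodup : ([∅, {0}] : List (Finset (Fin 1))).Nodup := by decide

lemma one_pairwise : ([∅, {0}] : List (Finset (Fin 1))).Pairwise fun x y => ¬ y < x := by decide

lemma one_before : ∀ x y : Finset (Fin 1), ¬ y ≤ x → List.Sublist [x, y] [∅, {0}] := by decide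

lemma hasLDim_one : HasLDim (Finset (Fin 1)) 1 := by
  refine ⟨1, fun _ => [∅, {0}], IsLocalRealizer.of_before (fun _ => ⟨one_nodup, one_pairwise⟩)
    (fun x y h => ⟨0, one_before x y h⟩), ?_⟩
  intro x
  unfold mult
  exact (Finset.card_le_univ _).trans (by simp)

/-- `2^(m + n)` is the product of `2^m` and `2^n`. -/
def splitIso (m n : ℕ) : Finset (Fin m) × Finset (Fin n) ≃o Finset (Fin (m + n)) :=
  Finset.sumEquiv.symm.trans
    { toEquiv := Equiv.finsetCongr finSumFinEquiv
      map_rel_iff' := by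
        intro a b
        simp [Equiv.finsetCongr] }

lemma HasLDim.add {m n k l : ℕ} (hm : HasLDim (Finset (Fin m)) k)
    (hn : HasLDim (Finset (Fin n)) l) : HasLDim (Finset (Fin (m + n))) (k + l) :=
  (hm.prod hn).iso (splitIso m n)

lemma hasLDim_all : ∀ n : ℕ, HasLDim (Finset (Fin n)) (n - n / 4)
  | 0 => hasLDim_zero
  | 1 => hasLDim_one
  | 2 => hasLDim_one.add hasLDim_one
  | 3 => (hasLDim_one.add hasLDim_one).add hasLDim_one
  | n + 4 => by
    have h := (hasLDim_all n).add hasLDim_four
    have e : n - n / 4 + 3 = n + 4 - (n + 4) / 4 := by omega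
    rwa [e] at h

/-! ### Lower bounds -/

lemma one_le_of_hasLDim {n k : ℕ} (hn : 1 ≤ n) (h : HasLDim (Finset (Fin n)) k) : 1 ≤ k := by
  classical
  obtain ⟨m, L, hL, hk⟩ := h
  have hlt : (∅ : Finset (Fin n)) < {⟨0, hn⟩} := by
    exact Finset.empty_ssubset_singleton
  obtain ⟨i, hi⟩ := hL.comparable _ _ hlt
  obtain ⟨h1, -, -⟩ := before_idx (hL.ple i).1 hi
  refine le_trans ?_ (hk ∅)
  unfold mult
  rw [Nat.one_le_iff_ne_zero, Finset.card_ne_zero]
  exact ⟨i, by simp [h1]⟩

lemma two_le_of_hasLDim {n k : ℕ} (hn : 2 ≤ n) (h : HasLDim (Finset (Fin n)) k) : 2 ≤ k := by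
  classical
  obtain ⟨m, L, hL, hk⟩ := h
  have h1 : ¬ ({⟨0, by omega⟩} : Finset (Fin n)) ≤ {⟨1, by omega⟩} := by
    simp
  have h2 : ¬ ({⟨1, by omega⟩} : Finset (Fin n)) ≤ {⟨0, by omega⟩} := by
    simp
  refine le_trans ?_ (hk {⟨0, by omega⟩})
  refine (two_le_mult hL h1 h2).trans ?_
  unfold mult
  convert Finset.card_le_card Finset.inter_subset_left

/-- The two kinds of elements used in the lower bound. -/
def aa (n : ℕ) (hn : 3 ≤ n) (i : Fin 3) : Finset (Fin n) := {⟨i, by omega⟩}

/-- The two kinds of elements used in the lower bound. -/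
def cc (n : ℕ) (hn : 3 ≤ n) (i : Fin 3) : Finset (Fin n) :=
  {⟨(i + 1 : Fin 3), by omega⟩, ⟨(i + 2 : Fin 3), by omega⟩}

lemma aa_not_le (n : ℕ) (hn : 3 ≤ n) {i j : Fin 3} (h : i ≠ j) : ¬ aa n hn i ≤ aa n hn j := by
  simp only [aa, Finset.singleton_subset_singleton, Fin.mk.injEq]
  omega

lemma aa_not_le_cc (n : ℕ) (hn : 3 ≤ n) (i : Fin 3) : ¬ aa n hn i ≤ cc n hn i := by
  simp only [aa, cc, Finset.singleton_subset_iff, Finset.mem_insert,
    Finset.mem_singleton, Fin.mk.injEq]
  fin_cases i <;> simp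

lemma cc_not_le_aa (n : ℕ) (hn : 3 ≤ n) (i : Fin 3) : ¬ cc n hn i ≤ aa n hn i := by
  simp only [aa, cc]
  intro h
  have := h (Finset.mem_insert_self _ _)
  rw [Finset.mem_singleton, Fin.mk.injEq] at this
  revert this
  fin_cases i <;> simp

lemma aa_lt_cc (n : ℕ) (hn : 3 ≤ n) {i j : Fin 3} (h : i ≠ j) : aa n hn i < cc n hn j := by
  rw [lt_iff_le_not_ge]
  constructor
  · simp only [aa, cc, Finset.singleton_subset_iff, Finset.mem_insert,
      Finset.mem_singleton, Fin.mk.injEq]
    revert i j
    decide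
  · intro h'
    simp only [aa, cc] at h'
    have h1 := h' (Finset.mem_insert_self _ _)
    have h2 := h' (Finset.mem_insert_of_mem (Finset.mem_singleton_self _))
    rw [Finset.mem_singleton, Fin.mk.injEq] at h1 h2
    rw [← h2] at h1
    revert h1
    fin_cases j <;> simp

lemma three_le_of_hasLDim {n k : ℕ} (hn : 3 ≤ n) (h : HasLDim (Finset (Fin n)) k) : 3 ≤ k := by
  classical
  by_contra hk3
  obtain ⟨m, L, hL, hk⟩ := h
  have hk2 : ∀ x, mult L x ≤ 2 := fun x => (hk x).trans (by omega)
  let I : Finset (Fin n) → Finset (Fin m) := fun x => Finset.univ.filter fun i => x ∈ L i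
  have hI : ∀ x y, ¬ x ≤ y → ¬ y ≤ x → I x = I y := fun x y h1 h2 => by
    have := same_members hL h1 h2 (hk2 x) (hk2 y)
    convert this
  have ha : ∀ i, I (aa n hn i) = I (aa n hn 0) := by
    intro i
    by_cases h : i = 0
    · rw [h]
    · exact hI _ _ (aa_not_le n hn h) (aa_not_le n hn (Ne.symm h))
  have hc : ∀ i, I (cc n hn i) = I (aa n hn 0) := by
    intro i
    rw [← ha i]
    exact hI _ _ (cc_not_le_aa n hn i) (aa_not_le_cc n hn i)
  have hr : ∀ i : Fin 3, ∃ r, r ∈ I (aa n hn 0) ∧
      (L r).idxOf (cc n hn i) < (L r).idxOf (aa n hn i) := by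
    intro i
    obtain ⟨r, hr⟩ := hL.before (x := cc n hn i) (y := aa n hn i) (aa_not_le_cc n hn i)
    obtain ⟨h1, h2, h3⟩ := before_idx (hL.ple r).1 hr
    refine ⟨r, ?_, h3⟩
    rw [← ha i]
    simp [I, h2]
  choose r hr1 hr2 using hr
  have hcard : (I (aa n hn 0)).card ≤ 2 := by
    have := hk2 (aa n hn 0)
    unfold mult at this
    convert this
  obtain ⟨i, -, j, -, hij, hrij⟩ := Finset.exists_ne_map_eq_of_card_lt_of_maps_to
    (s := (Finset.univ : Finset (Fin 3))) (t := I (aa n hn 0)) (f := r)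
    (by rw [Finset.card_univ, Fintype.card_fin]; omega) (fun i _ => hr1 i)
  have mem : ∀ x, I x = I (aa n hn 0) → x ∈ L (r i) := by
    intro x hx
    have h1 : r i ∈ I x := by rw [hx]; exact hr1 i
    simpa [I] using h1
  have e1 := hr2 i
  have e2 := hr2 j
  rw [← hrij] at e2
  have e3 := idx_of_lt (hL.ple (r i)) (mem _ (ha i)) (mem _ (hc j)) (aa_lt_cc n hn hij)
  have e4 := idx_of_lt (hL.ple (r i)) (mem _ (ha j)) (mem _ (hc i)) (aa_lt_cc n hn hij.symm)
  omega

/-- **Result.** For every `n` the Boolean lattice `2^n` has a local realizer in which every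
element lies in at most `n - ⌊n / 4⌋` members, so `ldim(2^n) ≤ n - ⌊n / 4⌋`; for `n ≤ 3` one has
`ldim(2^n) = n`, and `ldim(2^4) = 3`. In particular `ldim(2^n) = n` if and only if `n ≤ 3`. -/
theorem result :
    (∀ n : ℕ, HasLDim (Finset (Fin n)) (n - n / 4)) ∧
    (∀ n : ℕ, ldim (Finset (Fin n)) ≤ n - n / 4) ∧
    (∀ n ≤ 3, ldim (Finset (Fin n)) = n) ∧
    ldim (Finset (Fin 4)) = 3 ∧
    (∀ n : ℕ, ldim (Finset (Fin n)) = n ↔ n ≤ 3) := by
  have h1 : ∀ n : ℕ, ldim (Finset (Fin n)) ≤ n - n / 4 := fun n => ldim_le (hasLDim_all n)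
  have h2 : ∀ n ≤ 3, ldim (Finset (Fin n)) = n := by
    intro n hn
    refine le_antisymm ((h1 n).trans (Nat.sub_le _ _)) (le_ldim (hasLDim_all n) ?_)
    intro j hj
    rcases (by omega : n = 0 ∨ n = 1 ∨ n = 2 ∨ n = 3) with rfl | rfl | rfl | rfl
    · exact Nat.zero_le _
    · exact one_le_of_hasLDim le_rfl hj
    · exact two_le_of_hasLDim le_rfl hj
    · exact three_le_of_hasLDim le_rfl hj
  refine ⟨hasLDim_all, h1, h2, ?_, ?_⟩
  · exact le_antisymm (h1 4) (le_ldim (hasLDim_all 4) fun j hj =>
      three_le_of_hasLDim (by norm_num) hj)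
  · intro n
    refine ⟨fun h => ?_, h2 n⟩
    have := h1 n
    omega

end Pool.Agent.Results.MP_666a49_co.Smaller
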